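import Mathlib

/-!
# ANL: analytic families of bilinear forms

Choose a basis `e i` of `V` (`Module.finBasis ℝ V` or `stdOrthonormalBasis`), `M x i j = B x (e i) (e j)`, `δ x = (M x).det = ∑ σ, sign σ • ∏ i, M x (σ i) i` (`Matrix.det_apply`).
Every entry `x ↦ B x (e i) (e j)` is analytic on `U` (evaluation is a continuous linear map: `AnalyticOnNhd.comp`/`ContinuousLinearMap.analyticAt`, or
`AnalyticAt` of `fun x => B x a b` by `ContinuousLinearMap.comp_analyticAt` with `ContinuousLinearMap.apply`), so `δ` is analytic on `U` (`Finset.analyticAt_sum`, `Finset.analyticAt_prod`,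
`AnalyticAt.const_smul`). `δ x = 0 ↔ ∃ Z ≠ 0, ∀ Z', B x Z Z' = 0`: `Matrix.exists_vecMul_eq_zero_iff` (`∃ v ≠ 0, v ᵥ* M = 0 ↔ M.det = 0`), `Z = ∑ v i • e i`,
`(v ᵥ* M) j = ∑ i, v i * B x (e i) (e j) = B x Z (e j)`; all `Z'` are combinations of the `e j`. So `δ = 0` near `x₁`, and the identity theorem
`AnalyticOnNhd.eqOn_zero_of_preconnected_of_eventuallyEq_zero` gives `δ = 0` on `U`.
-/

set_option autoImplicit false

open scoped Topology
open Filter Set

namespace TotFoc

theorem Anl_sing {V : Type*} [NormedAddCommGroup V] [NormedSpace ℝ V] {n : ℕ}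
    (b : Module.Basis (Fin n) ℝ V) (B : V →L[ℝ] V →L[ℝ] ℝ) :
    (∃ Z : V, Z ≠ 0 ∧ ∀ Z', B Z Z' = 0) ↔ (Matrix.of fun i j => B (b i) (b j)).det = 0 := by
  rw [← Matrix.exists_vecMul_eq_zero_iff]
  have key : ∀ (v : Fin n → ℝ) (j : Fin n),
      (Matrix.vecMul v (Matrix.of fun i j => B (b i) (b j))) j = B (∑ i, v i • b i) (b j) := by
    intro v j
    rw [map_sum]
    simp [Matrix.vecMul, dotProduct]
  constructor
  · rintro ⟨Z, hZ, hZ'⟩
    refine ⟨fun i => b.repr Z i, ?_, ?_⟩
    · intro h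
      apply hZ
      rw [← b.sum_repr Z]
      apply Finset.sum_eq_zero
      intro i _
      rw [congrFun h i]
      simp
    · funext j
      rw [key, b.sum_repr]
      exact hZ' _
  · rintro ⟨v, hv, hv'⟩
    refine ⟨∑ i, v i • b i, ?_, ?_⟩
    · intro h
      apply hv
      funext i
      exact Fintype.linearIndependent_iff.1 b.linearIndependent v h i
    · intro Z'
      rw [← b.sum_repr Z', map_sum]
      apply Finset.sum_eq_zero
      intro j _
      rw [map_smul, ← key, hv']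
      simp

theorem anl {P V : Type*} [NormedAddCommGroup P] [NormedSpace ℝ P] [NormedAddCommGroup V]
    [NormedSpace ℝ V] [FiniteDimensional ℝ V] {B : P → V →L[ℝ] V →L[ℝ] ℝ} {U : Set P}
    (hB : AnalyticOnNhd ℝ B U) (hU : IsPreconnected U) {x₁ : P} (h₁ : x₁ ∈ U)
    (h : ∀ᶠ x in 𝓝 x₁, ∃ Z : V, Z ≠ 0 ∧ ∀ Z', B x Z Z' = 0) :
    ∀ x ∈ U, ∃ Z : V, Z ≠ 0 ∧ ∀ Z', B x Z Z' = 0 := by
  set b := Module.finBasis ℝ V with hb
  have hent : ∀ i j, AnalyticOnNhd ℝ (fun x => B x (b i) (b j)) U := by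
    intro i j
    have h1 : AnalyticOnNhd ℝ (fun x => B x (b i)) U := by
      have h2 := (((ContinuousLinearMap.id ℝ (V →L[ℝ] V →L[ℝ] ℝ))).flip (b i)).comp_analyticOnNhd hB
      exact h2
    exact (ContinuousLinearMap.apply ℝ ℝ (b j)).comp_analyticOnNhd h1
  have hdet : AnalyticOnNhd ℝ (fun x => (Matrix.of fun i j => B x (b i) (b j)).det) U := by
    intro x hx
    simp only [Matrix.det_apply]
    apply Finset.analyticAt_fun_sum
    intro σ _
    have h2 : AnalyticAt ℝ (fun x => ∏ i, (Matrix.of fun i j => B x (b i) (b j)) (σ i) i) x := by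
      apply Finset.analyticAt_fun_prod
      intro i _
      exact hent (σ i) i x hx
    have e : (fun x => Equiv.Perm.sign σ • ∏ i, (Matrix.of fun i j => B x (b i) (b j)) (σ i) i) =
        fun x => ((Equiv.Perm.sign σ : ℤ) : ℝ) *
          ∏ i, (Matrix.of fun i j => B x (b i) (b j)) (σ i) i := by
      funext x
      rw [Units.smul_def, zsmul_eq_mul]
    rw [e]
    exact analyticAt_const.mul h2
  have hz : (fun x => (Matrix.of fun i j => B x (b i) (b j)).det) =ᶠ[𝓝 x₁] 0 := by
    filter_upwards [h] with x hx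
    exact (Anl_sing b (B x)).1 hx
  have heq := hdet.eqOn_zero_of_preconnected_of_eventuallyEq_zero hU h₁ hz
  intro x hx
  exact (Anl_sing b (B x)).2 (heq hx)

end TotFoc
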