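import Pool.Agent.H49.TF.Kappa
import Pool.Agent.H49.TF.Hgt.Anl

/-!
# ANC: height functions: analytic continuation of the degeneracy in a chart

`φ = gr x T g`. Let `O = ball 0 ρ ⊆ T` such that for `y ∈ O`: `g` is analytic at `y` (`h.smooth` is `ContDiffAt ℝ ω`: `contDiffAt_omega_iff_analyticAt`, `AnalyticAt.eventually_analyticAt`),
`near_mem`, `near_orth`, `crit_near`, `nd_near` hold. `B (y, w) Z Z' = ⟪w, D2 g y Z Z'⟫`, `B : T × E → T →L T →L ℝ`, is analytic on `O ×ˢ univ`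
(`AnalyticAt.fderiv` twice for `g`; `B` is a composition with continuous (bi)linear maps), which is preconnected (convex). `U` = a neighbourhood of `x` such that for `x' ∈ U ∩ X`:
`y = T.orthogonalProjectionOnto (x' - x) ∈ O` and `φ y = x'` (`h.surj`).
Let `x₁ = φ y₁ ∈ X ∩ U`, `a₁` as in the hypothesis, `n₁ = - a₁`, so `n₁` is normal at `x₁`. For `(y, w)` near `(y₁, n₁)` put `w' = w - P w` (`P` = orthogonal projection to `T`), `t(y, w) ∈ T` the
vector with `⟪t, Z⟫ = ⟪w', Dg(y) Z⟫` for all `Z ∈ T` (`(InnerProductSpace.toDual ℝ T).symm ((innerSL ℝ w').comp (fderiv ℝ g y))`, continuous in `(y, w)`) and `n = w' - t`. Then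
`⟪n, Z + Dg(y) Z⟫ = ⟪w', Dg(y) Z⟫ - ⟪t, Z⟫ = 0` (`w' ⊥ T`, `Dg(y) Z ⊥ T`: `fderiv_mem_orth`): `n` is normal at `φ y` (`near_orth`), so `Crit X 0 (-n) (φ y)`; at `(y₁, n₁)`: `⟪t, Z⟫ = ⟪n₁, Dg(y₁) Z⟫ = - ⟪n₁, Z⟫`, so
`t = - P n₁`, `n = n₁`. By continuity `(φ y, -n)` is near `(x₁, a₁)`, so `¬ ND ω X 0 (-n) (φ y)`: by `nd_near` there is `Z ≠ 0` with
`0 = D2 (fn 0 (-n) ∘ φ) y Z Z' = ⟪n, D2 g y Z Z'⟫ = ⟪w, D2 g y Z Z'⟫ = B (y, w) Z Z'` (`D2_fn_gr`; `n - w ∈ T` and `D2 g y Z Z' ∈ Tᗮ`: `D2_mem_orth`). So the hypothesis of `anl` holds at `(y₁, n₁)`, and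
`B` is singular on `O ×ˢ univ`. For `x₂ = φ y₂ ∈ X ∩ U` and `a₂` with `Crit X 0 a₂ x₂`: `Z ≠ 0` with `B (y₂, -a₂) Z Z' = 0 = D2 (fn 0 a₂ ∘ φ) y₂ Z Z'`, so `¬ ND` by `nd_near`.
-/

set_option autoImplicit false

open scoped Topology ContDiff RealInnerProductSpace
open Filter Set

namespace TotFoc

variable {E : Type*} [NormedAddCommGroup E] [InnerProductSpace ℝ E] [FiniteDimensional ℝ E]

/-- the family of bilinear forms -/
noncomputable def Anc_B {V : Type*} [NormedAddCommGroup V] [NormedSpace ℝ V] (g : V → E)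
    (p : V × E) : V →L[ℝ] V →L[ℝ] ℝ :=
  (ContinuousLinearMap.compL ℝ V E ℝ (innerSL ℝ p.2)).comp (D2 g p.1)

theorem Anc_B_apply {V : Type*} [NormedAddCommGroup V] [NormedSpace ℝ V] (g : V → E)
    (p : V × E) (Z Z' : V) : Anc_B g p Z Z' = ⟪p.2, D2 g p.1 Z Z'⟫ := rfl

theorem Anc_B_an {V : Type*} [NormedAddCommGroup V] [NormedSpace ℝ V] {g : V → E}
    {p : V × E} (hg : ContDiffAt ℝ ω g p.1) : AnalyticAt ℝ (Anc_B g) p := by
  have h1 : ContDiffAt ℝ ω (D2 g) p.1 := contDiffAt_D2 hg le_top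
  have h2 : ContDiffAt ℝ ω (fun q : V × E => D2 g q.1) p :=
    ContDiffAt.comp (g := D2 g) (f := Prod.fst) p h1 contDiffAt_fst
  have h5 : ContDiffAt ℝ ω (fun q : V × E => innerSL ℝ q.2) p :=
    ContDiffAt.comp (g := innerSL ℝ (E := E)) (f := Prod.snd) p
      (innerSL ℝ (E := E)).contDiff.contDiffAt contDiffAt_snd
  have h6 : ContDiff ℝ ω (fun A : E →L[ℝ] ℝ => ContinuousLinearMap.compL ℝ V E ℝ A) :=
    by fun_prop
  have h3 : ContDiffAt ℝ ω (fun q : V × E => ContinuousLinearMap.compL ℝ V E ℝ (innerSL ℝ q.2)) p :=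
    ContDiffAt.comp (g := fun A : E →L[ℝ] ℝ => ContinuousLinearMap.compL ℝ V E ℝ A)
      (f := fun q : V × E => innerSL ℝ q.2) p h6.contDiffAt h5
  have h4 : ContDiffAt ℝ ω (Anc_B g) p := h3.clm_comp h2
  exact h4.analyticAt

/-- the projection of `w` to the normal space at `y` -/
noncomputable def Anc_n (T : Submodule ℝ E) (g : T → E) (p : T × E) : E :=
  (p.2 - (T.orthogonalProjectionOnto p.2 : E)) -
    ((ContinuousLinearMap.adjoint (fderiv ℝ g p.1)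
      (p.2 - (T.orthogonalProjectionOnto p.2 : E)) : T) : E)

theorem Anc_inner_proj (T : Submodule ℝ E) (w : E) (Z : T) :
    ⟪(T.orthogonalProjectionOnto w : E), (Z : E)⟫ = ⟪w, (Z : E)⟫ := by
  rw [← Submodule.coe_inner]
  exact Submodule.inner_orthogonalProjectionOnto_eq_of_mem_right Z w

theorem Anc_n_cont {T : Submodule ℝ E} {g : T → E} {p : T × E} (hg : ContDiffAt ℝ ω g p.1) :
    ContinuousAt (Anc_n T g) p := by
  have h1 : ContDiffAt ℝ ω (fderiv ℝ g) p.1 := contDiffAt_D1 hg le_top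
  have h2 : ContinuousAt (fun q : T × E => fderiv ℝ g q.1) p :=
    ContinuousAt.comp (g := fderiv ℝ g) (f := Prod.fst) h1.continuousAt continuousAt_fst
  have h3 : ContinuousAt (fun q : T × E => ContinuousLinearMap.adjoint (fderiv ℝ g q.1)) p :=
    (ContinuousLinearMap.adjoint (𝕜 := ℝ) (E := T) (F := E)).continuous.continuousAt.comp h2
  have h4 : ContinuousAt (fun q : T × E => q.2 - (T.orthogonalProjectionOnto q.2 : E)) p := by
    fun_prop
  have h5 := h3.clm_apply h4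
  exact h4.sub (continuous_subtype_val.continuousAt.comp h5)

theorem Anc_n_normal {T : Submodule ℝ E} {g : T → E} (hp : ∀ y, g y ∈ Tᗮ) (p : T × E) (Z : T) :
    ⟪Anc_n T g p, (Z : E) + fderiv ℝ g p.1 Z⟫ = 0 := by
  unfold Anc_n
  set w' := p.2 - (T.orthogonalProjectionOnto p.2 : E) with hw'
  have h1 : ⟪w', (Z : E)⟫ = 0 := by
    rw [hw', inner_sub_left, Anc_inner_proj, sub_self]
  have h2 : ⟪((ContinuousLinearMap.adjoint (fderiv ℝ g p.1) w' : T) : E), (Z : E)⟫ =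
      ⟪w', fderiv ℝ g p.1 Z⟫ := by
    rw [← Submodule.coe_inner, ContinuousLinearMap.adjoint_inner_left]
  have h3 : ⟪((ContinuousLinearMap.adjoint (fderiv ℝ g p.1) w' : T) : E),
      fderiv ℝ g p.1 Z⟫ = 0 :=
    Submodule.inner_right_of_mem_orthogonal (ContinuousLinearMap.adjoint (fderiv ℝ g p.1) w').2
      (fderiv_mem_orth hp p.1 Z)
  rw [inner_sub_left, inner_add_right, inner_add_right, h1, h2, h3]
  ring

theorem Anc_n_D2 {T : Submodule ℝ E} {g : T → E} (hp : ∀ y, g y ∈ Tᗮ) (p : T × E) (Z Z' : T) :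
    ⟪Anc_n T g p, D2 g p.1 Z Z'⟫ = ⟪p.2, D2 g p.1 Z Z'⟫ := by
  unfold Anc_n
  rw [inner_sub_left, inner_sub_left,
    Submodule.inner_right_of_mem_orthogonal (T.orthogonalProjectionOnto p.2).2
      (D2_mem_orth hp p.1 Z Z'),
    Submodule.inner_right_of_mem_orthogonal (ContinuousLinearMap.adjoint (fderiv ℝ g p.1)
      (p.2 - (T.orthogonalProjectionOnto p.2 : E))).2 (D2_mem_orth hp p.1 Z Z')]
  ring

theorem Anc_n_self {T : Submodule ℝ E} {g : T → E} (hp : ∀ y, g y ∈ Tᗮ) (p : T × E)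
    (hn : ∀ Z : T, ⟪p.2, (Z : E) + fderiv ℝ g p.1 Z⟫ = 0) : Anc_n T g p = p.2 := by
  have h1 : ContinuousLinearMap.adjoint (fderiv ℝ g p.1)
      (p.2 - (T.orthogonalProjectionOnto p.2 : E)) = - T.orthogonalProjectionOnto p.2 := by
    apply ext_inner_right ℝ
    intro Z
    rw [ContinuousLinearMap.adjoint_inner_left, inner_sub_left,
      Submodule.inner_right_of_mem_orthogonal (T.orthogonalProjectionOnto p.2).2
        (fderiv_mem_orth hp p.1 Z), inner_neg_left, Submodule.coe_inner, Anc_inner_proj]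
    have := hn Z
    rw [inner_add_right] at this
    linarith
  unfold Anc_n
  rw [h1]
  simp

theorem anc {X : Set E} (hX : Loc ω X) {x : E} {T : Submodule ℝ E} {g : T → E}
    (h : Chart ω X x T g) : ∃ U ∈ 𝓝 x, ∀ x₁ ∈ X ∩ U, ∀ a₁, Crit X 0 a₁ x₁ →
      (∀ᶠ w : E × E in 𝓝 (x₁, a₁), Crit X 0 w.2 w.1 → ¬ ND ω X 0 w.2 w.1) →
      ∀ x₂ ∈ X ∩ U, ∀ a₂, Crit X 0 a₂ x₂ → ¬ ND ω X 0 a₂ x₂ := by
  have hg : ∀ᶠ y in 𝓝 (0 : T), ContDiffAt ℝ ω g y := h.smooth.eventually (by simp)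
  obtain ⟨ρ, hρ, hO⟩ := Metric.eventually_nhds_iff_ball.1
    (hg.and ((h.crit_near le_top).and (h.nd_near le_top hX)))
  have hPr : ContinuousAt (fun x' : E => T.orthogonalProjectionOnto (x' - x)) x := by fun_prop
  have hPr0 : T.orthogonalProjectionOnto (x - x) = 0 := by rw [sub_self, map_zero]
  have hU1 : ∀ᶠ x' in 𝓝 x, T.orthogonalProjectionOnto (x' - x) ∈ Metric.ball (0 : T) ρ := by
    have h1 : Tendsto (fun x' : E => T.orthogonalProjectionOnto (x' - x)) (𝓝 x) (𝓝 0) := by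
      have h2 := hPr.tendsto
      rwa [hPr0] at h2
    exact h1.eventually (Metric.ball_mem_nhds 0 hρ)
  refine ⟨_, h.surj.and hU1, ?_⟩
  rintro x₁ ⟨hx₁, hs₁, hb₁⟩ a₁ hc₁ hev x₂ ⟨hx₂, hs₂, hb₂⟩ a₂ hc₂
  replace hs₁ := hs₁ hx₁
  replace hs₂ := hs₂ hx₂
  set y₁ := T.orthogonalProjectionOnto (x₁ - x) with hy₁
  set y₂ := T.orthogonalProjectionOnto (x₂ - x) with hy₂
  obtain ⟨hg₁, hcr₁, -⟩ := hO y₁ hb₁
  obtain ⟨hg₂, hcr₂, hnd₂⟩ := hO y₂ hb₂
  have hdg : ∀ y ∈ Metric.ball (0 : T) ρ, DifferentiableAt ℝ g y := fun y hy =>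
    (hO y hy).1.differentiableAt (by simp)
  -- the normal vector
  have hn₁ : ∀ Z : T, ⟪-a₁, (Z : E) + fderiv ℝ g y₁ Z⟫ = 0 := by
    intro Z
    rw [← hs₁] at hc₁
    have h1 := (hcr₁ 0 a₁).1 hc₁
    have h2 := fderiv_fn_gr (p := x) 0 a₁ (hdg y₁ hb₁) Z
    rw [h1] at h2
    rw [zero_smul, zero_sub] at h2
    exact h2.symm
  have hself : Anc_n T g (y₁, -a₁) = -a₁ := Anc_n_self h.perp (y₁, -a₁) hn₁
  -- singularity near the base point
  have hsing : ∀ᶠ q : T × E in 𝓝 (y₁, -a₁), ∃ Z : T, Z ≠ 0 ∧ ∀ Z', Anc_B g q Z Z' = 0 := by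
    have hc : ContinuousAt (fun q : T × E => ((gr x T g q.1, -Anc_n T g q) : E × E)) (y₁, -a₁) := by
      have h1 : ContinuousAt (gr x T g) y₁ := (Hess_contDiffAt_gr hg₁).continuousAt
      have h2 : ContinuousAt (fun q : T × E => gr x T g q.1) (y₁, -a₁) :=
        ContinuousAt.comp (g := gr x T g) (f := Prod.fst) h1 continuousAt_fst
      exact h2.prodMk (Anc_n_cont hg₁).neg
    have hv : ((gr x T g y₁, -Anc_n T g (y₁, -a₁)) : E × E) = (x₁, a₁) := by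
      rw [hself, hs₁, neg_neg]
    have h1 : ∀ᶠ q : T × E in 𝓝 (y₁, -a₁), Crit X 0 (-Anc_n T g q) (gr x T g q.1) →
        ¬ ND ω X 0 (-Anc_n T g q) (gr x T g q.1) := by
      have h2 := hc.tendsto
      simp only [hv] at h2
      exact h2.eventually hev
    have h3 : ∀ᶠ q : T × E in 𝓝 (y₁, -a₁), q.1 ∈ Metric.ball (0 : T) ρ :=
      continuousAt_fst.eventually (Metric.isOpen_ball.mem_nhds hb₁)
    filter_upwards [h1, h3] with q hq1 hq2
    obtain ⟨hg', hcr', hnd'⟩ := hO q.1 hq2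
    have hcrit : Crit X 0 (-Anc_n T g q) (gr x T g q.1) := by
      rw [hcr']
      ext Z
      rw [fderiv_fn_gr (p := x) 0 _ (hdg q.1 hq2) Z, zero_smul, zero_sub, neg_neg]
      exact Anc_n_normal h.perp q Z
    have h4 := hq1 hcrit
    rw [hnd' 0 _ hcrit] at h4
    push Not at h4
    obtain ⟨Z, hZ, hZ0⟩ := h4
    refine ⟨Z, hZ0, fun Z' => ?_⟩
    have h5 := hZ Z'
    rw [D2_fn_gr (p := x) 0 _ (hg'.of_le le_top), zero_mul, zero_add, zero_smul, zero_sub, neg_neg,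
      Anc_n_D2 h.perp] at h5
    rw [Anc_B_apply]
    exact h5
  have hall := anl (B := Anc_B g) (U := Metric.ball (0 : T) ρ ×ˢ (univ : Set E))
    (fun q hq => Anc_B_an (hO q.1 hq.1).1)
    ((convex_ball (0 : T) ρ).prod convex_univ).isPreconnected
    (x₁ := (y₁, -a₁)) ⟨hb₁, mem_univ _⟩ hsing (y₂, -a₂) ⟨hb₂, mem_univ _⟩
  obtain ⟨Z, hZ0, hZ⟩ := hall
  rw [← hs₂] at hc₂ ⊢
  rw [hnd₂ 0 a₂ hc₂]
  push Not
  refine ⟨Z, fun Z' => ?_, hZ0⟩
  rw [D2_fn_gr (p := x) 0 _ (hg₂.of_le le_top), zero_mul, zero_add, zero_smul, zero_sub]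
  exact hZ Z'

end TotFoc
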