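import Pool.Agent.H49.TF.Hgt.Sng
import Pool.Agent.H49.TF.Hgt.Anc

/-!
# TFX: for connected compact analytic submanifolds the distance functions suffice

`c ≠ 0`: `tf_ne_zero`. Let `c = 0`, `p` nondegenerate, `q` degenerate for `fn 0 a`. `Q = {x | ∀ a', Crit X 0 a' x → ¬ ND ω X 0 a' x}`, `u = {x | ∀ᶠ x' in 𝓝 x, x' ∈ X → x' ∈ Q}`,
`v = {x | ∀ᶠ x' in 𝓝 x, x' ∈ X → x' ∉ u}`: both are open (`eventually_eventually_nhds`), and `X ∩ (u ∩ v) = ∅`. `q ∈ u`: `sng` and `anc` (chart at `q`, `x₁ = q`, `a₁ = a`).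
`X ⊆ u ∪ v`: let `x ∈ X`, `x ∉ v`, and `U` from `anc` at `x`; then there is `x₁ ∈ X ∩ u ∩ U`; take `a₁ = 0` (`Crit X 0 0 x₁` holds for every `x₁ ∈ X`): for `w` near `(x₁, 0)` with `Crit X 0 w.2 w.1`
we have `w.1 ∈ X`, so `w.1 ∈ Q`, so `¬ ND ω X 0 w.2 w.1`. `anc` gives `X ∩ U ⊆ Q`, so `x ∈ u` (`U ∈ 𝓝 x`). As `X` is preconnected, `X ⊆ u` (`IsPreconnected.subset_left_of_subset_union` or
`isPreconnected_iff_subset_of_disjoint`), so `X ⊆ Q` (`Eventually.self_of_nhds`).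
Let `x` be a point of `X` with maximal norm (`X` compact, contains `p`), chart `(T, g)`. `farthest` with `a = 0`: `Crit X 1 0 x` and `hs T g 1 (1 • x - 0) Z Z ≤ 0`, i.e. `‖Z‖² + ⟪x, D2 g 0 Z Z⟫ ≤ 0`.
`Crit X 0 (-x) x` (`0 • x - (-x) = x = 1 • x - 0`), and `ND ω X 0 (-x) x` (`Chart.nd_iff`: `hs T g 0 x Z Z' = 0` for all `Z'`; take `Z' = Z`: `⟪x, D2 g 0 Z Z⟫ = 0`, so `Z = 0`). But `x ∈ Q`:
contradiction.
-/

set_option autoImplicit false

open scoped Topology ContDiff RealInnerProductSpace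
open Filter Set

namespace TotFoc

variable {E : Type*} [NormedAddCommGroup E] [InnerProductSpace ℝ E] [FiniteDimensional ℝ E]

theorem tfx_of_tf1 {X : Set E} (h : IsSub ω X) (hc : IsPreconnected X) (h1 : TF1 ω X) :
    TFx ω X := by
  intro c a p q hp hq hn
  by_cases hc0 : c ≠ 0
  · exact tf_ne_zero h1 hc0 hp hq hn
  rw [not_not] at hc0
  subst hc0
  by_contra hd
  have hsng := sng le_top h h1 hp hn hq hd
  set Q : Set E := {x | ∀ a', Crit X 0 a' x → ¬ ND ω X 0 a' x} with hQ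
  set u : Set E := {x | ∀ᶠ x' in 𝓝 x, x' ∈ X → x' ∈ Q} with hu
  set v : Set E := {x | ∀ᶠ x' in 𝓝 x, x' ∈ X → x' ∉ u} with hv
  have huo : IsOpen u := isOpen_setOfPred_eventually_nhds
  have hvo : IsOpen v := isOpen_setOfPred_eventually_nhds
  have hqX : q ∈ X := hq.1
  have hqu : q ∈ u := by
    obtain ⟨T, g, hch, -⟩ := h.2 q hqX
    obtain ⟨U, hU, hUa⟩ := anc h.2 hch
    have hq2 := hUa q ⟨hqX, mem_of_mem_nhds hU⟩ a hq hsng
    show ∀ᶠ x' in 𝓝 q, x' ∈ X → x' ∈ Q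
    filter_upwards [hU] with x' hx' hX a' ha'
    exact hq2 x' ⟨hX, hx'⟩ a' ha'
  have hcov : X ⊆ u ∪ v := by
    intro x hx
    by_cases hxv : x ∈ v
    · exact Or.inr hxv
    left
    have hfr : ∃ᶠ x' in 𝓝 x, x' ∈ X ∧ x' ∈ u := by
      intro hne
      apply hxv
      show ∀ᶠ x' in 𝓝 x, x' ∈ X → x' ∉ u
      filter_upwards [hne] with x' hx' hX hu'
      exact hx' ⟨hX, hu'⟩
    obtain ⟨T, g, hch, -⟩ := h.2 x hx
    obtain ⟨U, hU, hUa⟩ := anc h.2 hch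
    obtain ⟨x₁, ⟨hx₁, hx₁u⟩, hx₁U⟩ := (hfr.and_eventually hU).exists
    have hcr : Crit X 0 0 x₁ := by
      refine ⟨hx₁, ?_⟩
      rw [zero_smul, sub_zero]
      exact Submodule.zero_mem _
    have hev : ∀ᶠ w : E × E in 𝓝 (x₁, (0 : E)), Crit X 0 w.2 w.1 → ¬ ND ω X 0 w.2 w.1 := by
      have h3 : ∀ᶠ x' in 𝓝 x₁, x' ∈ X → x' ∈ Q := hx₁u
      filter_upwards [(continuous_fst.tendsto (x₁, (0 : E))).eventually h3] with w hw hcw
      exact hw hcw.1 w.2 hcw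
    have h4 := hUa x₁ ⟨hx₁, hx₁U⟩ 0 hcr hev
    show ∀ᶠ x' in 𝓝 x, x' ∈ X → x' ∈ Q
    filter_upwards [hU] with x' hx' hX a' ha'
    exact h4 x' ⟨hX, hx'⟩ a' ha'
  have hdis : X ∩ (u ∩ v) = ∅ := by
    rw [Set.eq_empty_iff_forall_notMem]
    rintro x ⟨hx, hxu, hxv⟩
    have h3 : ∀ᶠ x' in 𝓝 x, x' ∈ X → x' ∉ u := hxv
    exact h3.self_of_nhds hx hxu
  have hXu : X ⊆ u := by
    rcases isPreconnected_iff_subset_of_disjoint.mp hc u v huo hvo hcov hdis with h3 | h3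
    · exact h3
    · exfalso
      have h4 : q ∈ X ∩ (u ∩ v) := ⟨hqX, hqu, h3 hqX⟩
      rw [hdis] at h4
      exact h4
  have hXQ : ∀ x ∈ X, x ∈ Q := by
    intro x hx
    have h3 : ∀ᶠ x' in 𝓝 x, x' ∈ X → x' ∈ Q := hXu hx
    exact h3.self_of_nhds hx
  obtain ⟨x, hx, hmax⟩ := h.1.exists_isMaxOn ⟨q, hqX⟩ continuous_norm.continuousOn
  obtain ⟨T, g, hch, -⟩ := h.2 x hx
  obtain ⟨k1, k2⟩ := farthest (a := 0) hx hch le_top (fun y hy => by
    rw [sub_zero, sub_zero]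
    exact hmax hy)
  have hcr : Crit X 0 (-x) x := by
    refine ⟨hx, ?_⟩
    have h3 := k1.2
    rw [one_smul, sub_zero] at h3
    rw [zero_smul, zero_sub, neg_neg]
    exact h3
  have hnd : ND ω X 0 (-x) x := by
    rw [hch.nd_iff le_top]
    intro Z hZ
    have h3 := hZ Z
    have h4 := k2 Z
    unfold hs at h3 h4
    rw [zero_smul, zero_sub, neg_neg] at h3
    rw [one_smul, sub_zero] at h4
    have h5 : ⟪(Z : E), (Z : E)⟫ ≤ 0 := by linarith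
    have h6 : (Z : E) = 0 := by
      have h7 : 0 ≤ ⟪(Z : E), (Z : E)⟫ := real_inner_self_nonneg
      exact inner_self_eq_zero.mp (le_antisymm h5 h7)
    exact Subtype.ext h6
  exact hXQ x hx (-x) hcr hnd

end TotFoc
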