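import Pool.Agent.H49.TF.Kappa
import Pool.Agent.H49.TF.Crs.Fix

/-!
# SNG: height functions: degenerate critical points spread out

`p` is a nondegenerate and `q` a degenerate critical point of `fn 0 a = - ⟪a, ·⟫`. `kappa` at `(0, a, p)`: for all `(c', a')` near `(0, a)` there is a nondegenerate critical point of
`fn c' a'`; so by `tf_ne_zero`: (1) for `(c', a')` near `(0, a)` with `c' ≠ 0` all critical points of `fn c' a'` on `X` are nondegenerate.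
Chart `(T, g)` at `q`, `φ = gr q T g`. As `q` is degenerate there is `Z₀ ≠ 0` in `T` with `hs T g 0 (0 • q - a) Z₀ Z' = 0` for all `Z'` (`Chart.nd_iff`), i.e. `⟪a, D2 g 0 Z₀ Z'⟫ = 0`.
Let `(x₁, a₁)` be near `(q, a)`, `Crit X 0 a₁ x₁`; `x₁ ∈ X`, so `x₁ = φ y`, `y = T.orthogonalProjectionOnto (x₁ - q)` near `0` (`surj`). Apply `fixdeg` with `c₁ = 0`, `a₁`, `W = Z₀`, and `δ`:
the first hypothesis holds because the derivative is `0` (`crit_near`), the second because `D2 (fn 0 a₁ ∘ φ) y Z₀ Z = -⟪a₁, D2 g y Z₀ Z⟫` (`D2_fn_gr`) is small for `(y, a₁)` near `(0, a)` (`D2 g` is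
continuous at `0`), if `δ > 0` is given. So there is `c₂`, `a₂ = a₁ + c₂ • x₁`, `|c₂| ≤ B δ`, such that `x₁` is a degenerate critical point of `fn c₂ a₂`. If `c₂ ≠ 0` this contradicts (1)
(`δ` small and `(x₁, a₁)` close to `(q, a)`: `a₂` is near `a`). So `c₂ = 0`, `a₂ = a₁`.
-/

set_option autoImplicit false

open scoped Topology ContDiff RealInnerProductSpace
open Filter Set

namespace TotFoc

variable {E : Type*} [NormedAddCommGroup E] [InnerProductSpace ℝ E] [FiniteDimensional ℝ E]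

theorem Sng_one_le {r : ℕ∞ω} (hr : ∞ ≤ r) : (1 : ℕ∞ω) ≤ r := by
  refine le_trans ?_ hr
  have : ((1 : ℕ∞) : ℕ∞ω) ≤ ((⊤ : ℕ∞) : ℕ∞ω) := WithTop.coe_le_coe.mpr le_top
  exact this

theorem Sng_two_le {r : ℕ∞ω} (hr : ∞ ≤ r) : (2 : ℕ∞ω) ≤ r := by
  refine le_trans ?_ hr
  have : ((2 : ℕ∞) : ℕ∞ω) ≤ ((⊤ : ℕ∞) : ℕ∞ω) := WithTop.coe_le_coe.mpr le_top
  exact this

theorem sng {r : ℕ∞ω} (hr : ∞ ≤ r) {X : Set E} (h : IsSub r X) (h1 : TF1 r X) {a p q : E}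
    (hp : Crit X 0 a p) (hn : ND r X 0 a p) (hq : Crit X 0 a q) (hd : ¬ ND r X 0 a q) :
    ∀ᶠ x : E × E in 𝓝 (q, a), Crit X 0 x.2 x.1 → ¬ ND r X 0 x.2 x.1 := by
  have hr1 := Sng_one_le hr
  have hr2 := Sng_two_le hr
  obtain ⟨κ, -, -, k3, -⟩ := kappa hr h.2 hp hn
  have key : ∀ᶠ x : ℝ × E in 𝓝 ((0 : ℝ), a), x.1 ≠ 0 → ∀ q', Crit X x.1 x.2 q' →
      ND r X x.1 x.2 q' := by
    filter_upwards [k3] with x hx hx0 q' hq'
    exact tf_ne_zero h1 hx0 hx.1 hq' hx.2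
  obtain ⟨ε, hε, hkey⟩ := Metric.eventually_nhds_iff.1 key
  obtain ⟨T, g, hT, -⟩ := h.2 q hq.1
  rw [hT.nd_iff hr1] at hd
  push Not at hd
  obtain ⟨Z₀, hZ₀, hZ₀0⟩ := hd
  obtain ⟨B, hB, hfix⟩ := fixdeg hr h.2 hT
  -- the choice of `δ`
  obtain ⟨δ, hδ, hδ1, hδ2⟩ : ∃ δ : ℝ, 0 < δ ∧ B * δ < ε ∧ B * δ * (‖q‖ + 1) < ε / 2 := by
    have hq0 : 0 < ‖q‖ + 1 := by positivity
    refine ⟨min (ε / (2 * B)) (ε / (4 * B * (‖q‖ + 1))), by positivity, ?_, ?_⟩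
    · have h2 : B * min (ε / (2 * B)) (ε / (4 * B * (‖q‖ + 1))) ≤ B * (ε / (2 * B)) :=
        mul_le_mul_of_nonneg_left (min_le_left _ _) hB.le
      have h3 : B * (ε / (2 * B)) = ε / 2 := by field_simp
      linarith
    · have h2 : B * min (ε / (2 * B)) (ε / (4 * B * (‖q‖ + 1))) * (‖q‖ + 1) ≤
          B * (ε / (4 * B * (‖q‖ + 1))) * (‖q‖ + 1) :=
        mul_le_mul_of_nonneg_right (mul_le_mul_of_nonneg_left (min_le_right _ _) hB.le) hq0.le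
      have h3 : B * (ε / (4 * B * (‖q‖ + 1))) * (‖q‖ + 1) = ε / 4 := by field_simp
      linarith
  -- the second derivative is small
  have hZn : 0 < ‖Z₀‖ := norm_pos_iff.2 hZ₀0
  let Λ : T × E → (T →L[ℝ] ℝ) := fun x => (innerSL ℝ (-x.2)).comp (D2 g x.1 Z₀)
  have hΛc : ContinuousAt Λ (0, a) := by
    have c1 : ContinuousAt (D2 g) 0 := by
      have hh : ContDiffAt ℝ 0 (D2 g) 0 := contDiffAt_D2 (m := 0) (hT.smooth.of_le hr2) (by norm_num)
      exact hh.continuousAt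
    have c2 : ContinuousAt (fun x : T × E => D2 g x.1) (0, a) :=
      ContinuousAt.comp (g := D2 g) (f := fun x : T × E => x.1) c1 continuousAt_fst
    have c3 : ContinuousAt (fun x : T × E => D2 g x.1 Z₀) (0, a) :=
      c2.clm_apply continuousAt_const
    have c4 : ContinuousAt (fun x : T × E => innerSL ℝ (-x.2)) (0, a) := by fun_prop
    exact c4.clm_comp c3
  have hΛ0 : Λ (0, a) = 0 := by
    ext Z
    have e := hZ₀ Z
    unfold hs at e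
    rw [zero_mul, zero_add, zero_smul, zero_sub] at e
    exact e
  have hΛs : ∀ᶠ x : T × E in 𝓝 ((0 : T), a), ‖Λ x‖ < δ * ‖Z₀‖ := by
    have hpos : 0 < δ * ‖Z₀‖ := mul_pos hδ hZn
    have e : Tendsto Λ (𝓝 ((0 : T), a)) (𝓝 0) := by
      have := hΛc.tendsto
      rwa [hΛ0] at this
    have e1 : Tendsto (fun u : T →L[ℝ] ℝ => ‖u‖) (𝓝 0) (𝓝 0) := by
      have e3 := (continuous_norm (E := T →L[ℝ] ℝ)).tendsto 0
      have e4 : ‖(0 : T →L[ℝ] ℝ)‖ = 0 := ContinuousLinearMap.opNorm_zero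
      rwa [e4] at e3
    have e2 : Tendsto (fun x => ‖Λ x‖) (𝓝 ((0 : T), a)) (𝓝 0) := Tendsto.comp e1 e
    exact e2.eventually_lt_const hpos
  -- transfer
  have ht : Tendsto (fun x : E × E => (T.orthogonalProjectionOnto (x.1 - q), x.2)) (𝓝 (q, a))
      (𝓝 ((0 : T), a)) := by
    have hc : Continuous (fun x : E × E => (T.orthogonalProjectionOnto (x.1 - q), x.2)) := by
      fun_prop
    have h2 := hc.tendsto (q, a)
    simpa using h2
  have ht1 : Tendsto (fun x : E × E => T.orthogonalProjectionOnto (x.1 - q)) (𝓝 (q, a))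
      (𝓝 (0 : T)) := by
    have hc : Continuous (fun x : E × E => T.orthogonalProjectionOnto (x.1 - q)) := by
      fun_prop
    have h2 := hc.tendsto (q, a)
    simpa using h2
  have hfst : Tendsto (fun x : E × E => x.1) (𝓝 (q, a)) (𝓝 q) := continuous_fst.tendsto (q, a)
  have hsnd : Tendsto (fun x : E × E => x.2) (𝓝 (q, a)) (𝓝 a) := continuous_snd.tendsto (q, a)
  have hxn : ∀ᶠ x : E × E in 𝓝 (q, a), ‖x.1‖ < ‖q‖ + 1 := by
    have : ∀ᶠ y in 𝓝 q, ‖y‖ < ‖q‖ + 1 :=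
      continuous_norm.continuousAt.eventually_lt continuousAt_const (by linarith)
    exact hfst.eventually this
  have han : ∀ᶠ x : E × E in 𝓝 (q, a), dist x.2 a < ε / 2 := by
    have : ∀ᶠ y in 𝓝 a, dist y a < ε / 2 := Metric.ball_mem_nhds a (by positivity)
    exact hsnd.eventually this
  filter_upwards [ht.eventually hΛs, ht1.eventually hfix,
    ht1.eventually (hT.near_cont (n := 2) (by exact_mod_cast hr2)),
    ht1.eventually (hT.crit_near hr1), hfst.eventually hT.surj, hxn, han]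
    with x e1 e2 e3 e4 e5 e6 e7 hcr
  obtain ⟨x₁, a₁⟩ := x
  dsimp only at e1 e2 e3 e4 e5 e6 e7 hcr ⊢
  set y : T := T.orthogonalProjectionOnto (x₁ - q) with hy
  have e5' : gr q T g y = x₁ := e5 hcr.1
  have hcr' : Crit X 0 a₁ (gr q T g y) := by rw [e5']; exact hcr
  have hfd : fderiv ℝ (fun y => fn 0 a₁ (gr q T g y)) y = 0 := (e4 0 a₁).1 hcr'
  have hA : ∀ Z : T, |fderiv ℝ (fun y => fn 0 a₁ (gr q T g y)) y Z| ≤ δ * ‖Z‖ := by
    intro Z
    rw [hfd]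
    rw [_root_.zero_apply, abs_zero]
    positivity
  have hB2 : ∀ Z : T, |D2 (fun y => fn 0 a₁ (gr q T g y)) y Z₀ Z| ≤ δ * ‖Z₀‖ * ‖Z‖ := by
    intro Z
    rw [D2_fn_gr 0 a₁ e3.1 Z₀ Z, zero_mul, zero_add, zero_smul, zero_sub]
    have e8 : ⟪-a₁, D2 g y Z₀ Z⟫ = Λ (y, a₁) Z := rfl
    rw [e8]
    calc |Λ (y, a₁) Z| = ‖Λ (y, a₁) Z‖ := rfl
      _ ≤ ‖Λ (y, a₁)‖ * ‖Z‖ := (Λ (y, a₁)).le_opNorm Z
      _ ≤ δ * ‖Z₀‖ * ‖Z‖ := mul_le_mul_of_nonneg_right e1.le (norm_nonneg _)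
  obtain ⟨c₂, a₂, f1, -, f3, f4, f5⟩ := e2 0 a₁ Z₀ δ hZ₀0 hA hB2
  rw [sub_zero] at f1
  have f5' := f5 hcr'
  rw [sub_zero, e5'] at f5'
  rw [e5'] at f3 f4
  by_cases hc2 : c₂ = 0
  · rw [hc2, zero_smul, add_zero] at f5'
    rw [hc2, f5'] at f4
    exact f4
  · exfalso
    apply f4
    refine hkey (y := (c₂, a₂)) ?_ hc2 x₁ f3
    rw [Prod.dist_eq, max_lt_iff]
    refine ⟨?_, ?_⟩
    · rw [Real.dist_eq, sub_zero]
      exact lt_of_le_of_lt f1 hδ1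
    · rw [f5', dist_eq_norm]
      have g1 : a₁ + c₂ • x₁ - a = (a₁ - a) + c₂ • x₁ := by abel
      rw [g1]
      have g2 : ‖c₂ • x₁‖ ≤ B * δ * (‖q‖ + 1) := by
        rw [norm_smul, Real.norm_eq_abs]
        exact mul_le_mul f1 e6.le (norm_nonneg _) (by positivity)
      have g3 : ‖a₁ - a‖ < ε / 2 := by rw [← dist_eq_norm]; exact e7
      calc ‖(a₁ - a) + c₂ • x₁‖ ≤ ‖a₁ - a‖ + ‖c₂ • x₁‖ := norm_add_le _ _
        _ < ε := by linarith

end TotFoc
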